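import Pool.Agent.Helper96.BT.Defs
import Pool.Agent.Helper78.PH.Sum

/-!
# BT, piece G3: all classes

The pieces K5, R4 and G2 are hypotheses here.
-/

set_option autoImplicit false
set_option linter.unusedSectionVars false

namespace Pool.Agent.Helper18.BT

open Finset Pool.Agent.Helper19.NF Pool.Agent.Helper74.NW Pool.Agent.Helper96.BT
open Pool.Agent.Helper74.NE (fine fine_apply)
open Pool.Agent.Helper96.PH (Det CB opn)
open Pool.Agent.Helper74.NS (Expands)
open Pool.Agent.Helper78.PH (card_le_add_sum sum_card_le)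

variable {n D m S : ℕ} [NeZero m] {F B W G Z : Type} [Field F] [Fintype F] [AddCommGroup B] [AddCommGroup W]
  [Module F W] [Fintype W] [Fintype B] {enc : W →+ (Fin D × Fin m → B)}
variable {g : Fin D → Equiv.Perm (Fin n)} {x0 : Fin n × Fin m → B}

theorem miss_isSome {h e R : ℕ} {I : B × W → F} {V : Finset (B × W)} {v : Fin n}
    (hv : v ∉ comp enc g x0 h e R I V) : (miss enc g x0 h R I V v).isSome := by
  classical
  unfold comp at hv
  rw [Finset.mem_filter] at hv
  have h1 : ∃ c : Fin D × Fin m, h ≤ gap V (val (fine g) x0 (tab enc I) R (g c.1 v, c.2)) := by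
    by_contra h2
    push Not at h2
    refine hv ⟨Finset.mem_univ _, fun s => ?_⟩
    unfold full
    rw [Finset.mem_filter]
    refine ⟨Finset.mem_univ _, ?_⟩
    rw [Finset.filter_eq_empty_iff.2, Finset.card_empty]
    · exact Nat.zero_le _
    · intro t _
      exact not_le.2 (h2 (s, t))
  unfold miss
  rw [dif_pos h1]
  rfl

theorem opn_card {h e R a : ℕ} {I : B × W → F} (x : Fin (1 + 1) → Finset (B × W))
    (hx : ∀ l, (comp enc g x0 h e R I (x l)).card < a) :
    n ≤ (opn (fun l v => miss enc g x0 h R I (x l) v)).card + 2 * a := by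
  classical
  have h1 : (Finset.univ : Finset (Fin n)) ⊆ opn (fun l v => miss enc g x0 h R I (x l) v) ∪
      Finset.univ.biUnion (fun l => comp enc g x0 h e R I (x l)) := by
    intro v _
    by_cases h2 : ∃ l, v ∈ comp enc g x0 h e R I (x l)
    · obtain ⟨l, h3⟩ := h2
      exact Finset.mem_union_right _ (Finset.mem_biUnion.mpr ⟨l, Finset.mem_univ _, h3⟩)
    · push Not at h2
      refine Finset.mem_union_left _ ?_
      unfold opn
      rw [Finset.mem_filter]
      exact ⟨Finset.mem_univ _, fun l => miss_isSome (h2 l)⟩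
  have h2 := Finset.card_le_card h1
  rw [Finset.card_univ, Fintype.card_fin] at h2
  have h3 : (Finset.univ.biUnion (fun l => comp enc g x0 h e R I (x l))).card ≤ 2 * a := by
    refine (Finset.card_biUnion_le).trans ?_
    calc ∑ l : Fin (1 + 1), (comp enc g x0 h e R I (x l)).card ≤ ∑ _l : Fin (1 + 1), a :=
          Finset.sum_le_sum fun l _ => (hx l).le
      _ = 2 * a := by rw [Finset.sum_const, Finset.card_univ, Fintype.card_fin, smul_eq_mul]
  exact h2.trans ((Finset.card_union_le _ _).trans (Nat.add_le_add_left h3 _))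

/-- The missing letters of the two sides, with at least `N` open nodes. -/
abbrev Mt (D m n N : ℕ) : Type := {τ : Fin (1 + 1) → Fin n → Option (Fin D × Fin m) // N ≤ (opn τ).card}

noncomputable instance (D m n N : ℕ) : Fintype (Mt D m n N) := Fintype.ofFinite _

omit [NeZero m] in
theorem card_Mt (n N : ℕ) : Nat.card (Mt D m n N) ≤ (D * m + 1) ^ (2 * n) := by
  refine (Nat.card_le_card_of_injective _ Subtype.val_injective).trans (le_of_eq ?_)
  rw [Nat.card_fun, Nat.card_fun]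
  simp only [Nat.card_eq_fintype_card, Fintype.card_fin, Fintype.card_option, Fintype.card_prod]
  rw [← pow_mul, mul_comm n]

/-- G3, from K5 and the bounds for the bad inputs (R4) and for one type (G2). -/
theorem class_bound_of [Fintype G] [AddCommGroup G] {m1 : ℕ}
    (P : NProg (B × W) F Z S) (g : Fin D → Equiv.Perm (Fin n)) (x0 : Fin n × Fin m → B)
    {h e T a R q d N : ℕ} (γ : B → G) (hN : N + 2 * a ≤ n) {Θ : Type} [Fintype Θ]
    (L : Θ → Fin 2 → List (Fin S × ℕ × Fin S)) (Φ : Θ → Fin 2 → List (B × W) → Prop) (y : Θ → G)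
    (hLq : ∀ t j, (L t j).length ≤ q) (hLd : ∀ t j, ∀ p ∈ L t j, p.2.1 ≤ 2 ^ d) {e1 E : ℝ} (hE0 : 0 ≤ E)
    (k5 : ∀ (I : B × W → F) {L : List (Fin S × ℕ × Fin S)} {c c' : List (B × W)} (_ : RunL P I L c)
      (_ : RunL P I L c'), c = c')
    (hbad : (Nat.card {I // CF (fine g) x0 R (tab enc I) ∧ ∃ (L : List (Fin S × ℕ × Fin S)) (c : List (B × W)),
        L.length ≤ q ∧ (∀ p ∈ L, p.2.1 ≤ 2 ^ d) ∧ RunL P I L c ∧ Fintype.card (B × W) ≤ (free c).card + T ∧
        a ≤ (comp enc g x0 h e R I (free c)).card} : ℝ) ≤ e1 * Nat.card (B × W → F))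
    (htype : ∀ (L : Fin 2 → List (Fin S × ℕ × Fin S)) (Φ : Fin 2 → List (B × W) → Prop)
      (τ : Fin 2 → Fin n → Option (Fin D × Fin m)) (z : G),
      N ≤ (opn (w := 1) τ).card →
      (Nat.card {I : B × W → F // CF (fine g) x0 R (tab enc I) ∧ (∀ j, InS P enc g x0 h T R (L j) (Φ j) (τ j) I) ∧
        gout enc g x0 m1 R γ I = z} : ℝ) ≤
      Nat.card {I : B × W → F // CF (fine g) x0 R (tab enc I) ∧ ∀ j, InS P enc g x0 h T R (L j) (Φ j) (τ j) I} /
          Fintype.card G + E * Nat.card (B × W → F)) :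
    (Nat.card {I // CF (fine g) x0 R (tab enc I) ∧ ∃ t, y t = gout enc g x0 m1 R γ I ∧
        ∀ j, InC P T (L t j) (Φ t j) I} : ℝ) ≤
      (∑ t, (Nat.card {I // ∀ j, InC P T (L t j) (Φ t j) I} : ℝ)) / Fintype.card G +
        (e1 + Fintype.card Θ * (D * m + 1) ^ (2 * n) * E) * Nat.card (B × W → F) := by
  classical
  -- every input is bad or has a type
  have hcov : ∀ I : B × W → F, (CF (fine g) x0 R (tab enc I) ∧ ∃ t, y t = gout enc g x0 m1 R γ I ∧
      ∀ j, InC P T (L t j) (Φ t j) I) →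
      (CF (fine g) x0 R (tab enc I) ∧ ∃ (L : List (Fin S × ℕ × Fin S)) (c : List (B × W)),
        L.length ≤ q ∧ (∀ p ∈ L, p.2.1 ≤ 2 ^ d) ∧ RunL P I L c ∧ Fintype.card (B × W) ≤ (free c).card + T ∧
        a ≤ (comp enc g x0 h e R I (free c)).card) ∨
      ∃ θ : Θ × Mt D m n N, CF (fine g) x0 R (tab enc I) ∧
        (∀ j, InS P enc g x0 h T R (L θ.1 j) (Φ θ.1 j) (θ.2.1 j) I) ∧ gout enc g x0 m1 R γ I = y θ.1 := by
    rintro I ⟨hI, t, hy, hC⟩
    choose c hc1 hc2 hc3 using hC
    by_cases hc : ∃ j : Fin 2, a ≤ (comp enc g x0 h e R I (free (c j))).card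
    · obtain ⟨j, hj⟩ := hc
      exact Or.inl ⟨hI, L t j, c j, hLq t j, hLd t j, hc1 j, hc3 j, hj⟩
    · push Not at hc
      have h4 := opn_card (fun j : Fin (1 + 1) => free (c j)) hc
      have h3 : N ≤ (opn (fun (j : Fin (1 + 1)) v => miss enc g x0 h R I (free (c j)) v)).card := by omega
      exact Or.inr ⟨(t, ⟨_, h3⟩), hI, fun j => ⟨c j, hc1 j, hc2 j, hc3 j, fun v => rfl⟩, hy.symm⟩
  have h1 := card_le_add_sum hcov
  have hsum : ∀ t : Θ, ∑ τ : Mt D m n N, Nat.card {I : B × W → F // CF (fine g) x0 R (tab enc I) ∧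
      ∀ j, InS P enc g x0 h T R (L t j) (Φ t j) (τ.1 j) I} ≤
      Nat.card {I : B × W → F // ∀ j, InC P T (L t j) (Φ t j) I} := by
    intro t
    refine sum_card_le ?_ ?_
    · rintro τ I ⟨_, hI⟩ j
      obtain ⟨c, hc1, hc2, hc3, -⟩ := hI j
      exact ⟨c, hc1, hc2, hc3⟩
    · rintro τ τ' I ⟨_, hI⟩ ⟨_, hI'⟩
      refine Subtype.ext ?_
      funext j v
      obtain ⟨c, hc1, -, -, hc4⟩ := hI j
      obtain ⟨c', hc1', -, -, hc4'⟩ := hI' j
      have h5 := k5 I hc1 hc1'
      subst h5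
      exact (hc4 v).symm.trans (hc4' v)
  have h2 : (Nat.card {I // CF (fine g) x0 R (tab enc I) ∧ ∃ t, y t = gout enc g x0 m1 R γ I ∧
        ∀ j, InC P T (L t j) (Φ t j) I} : ℝ) ≤
      (Nat.card {I // CF (fine g) x0 R (tab enc I) ∧ ∃ (L : List (Fin S × ℕ × Fin S)) (c : List (B × W)),
        L.length ≤ q ∧ (∀ p ∈ L, p.2.1 ≤ 2 ^ d) ∧ RunL P I L c ∧ Fintype.card (B × W) ≤ (free c).card + T ∧
        a ≤ (comp enc g x0 h e R I (free c)).card} : ℝ) +
        ∑ θ : Θ × Mt D m n N, (Nat.card {I : B × W → F // CF (fine g) x0 R (tab enc I) ∧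
          (∀ j, InS P enc g x0 h T R (L θ.1 j) (Φ θ.1 j) (θ.2.1 j) I) ∧ gout enc g x0 m1 R γ I = y θ.1} : ℝ) := by
    exact_mod_cast h1
  have hGpos : (0 : ℝ) ≤ Fintype.card G := Nat.cast_nonneg _
  refine h2.trans ?_
  have h3 : ∑ θ : Θ × Mt D m n N, (Nat.card {I : B × W → F // CF (fine g) x0 R (tab enc I) ∧
          (∀ j, InS P enc g x0 h T R (L θ.1 j) (Φ θ.1 j) (θ.2.1 j) I) ∧ gout enc g x0 m1 R γ I = y θ.1} : ℝ) ≤
      (∑ t, (Nat.card {I // ∀ j, InC P T (L t j) (Φ t j) I} : ℝ)) / Fintype.card G +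
        Fintype.card Θ * (D * m + 1) ^ (2 * n) * E * Nat.card (B × W → F) := by
    calc ∑ θ : Θ × Mt D m n N, (Nat.card {I : B × W → F // CF (fine g) x0 R (tab enc I) ∧
          (∀ j, InS P enc g x0 h T R (L θ.1 j) (Φ θ.1 j) (θ.2.1 j) I) ∧ gout enc g x0 m1 R γ I = y θ.1} : ℝ)
        ≤ ∑ θ : Θ × Mt D m n N, ((Nat.card {I : B × W → F // CF (fine g) x0 R (tab enc I) ∧
          ∀ j, InS P enc g x0 h T R (L θ.1 j) (Φ θ.1 j) (θ.2.1 j) I} : ℝ) / Fintype.card G +
            E * Nat.card (B × W → F)) := Finset.sum_le_sum fun θ _ =>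
          htype (L θ.1) (Φ θ.1) θ.2.1 (y θ.1) θ.2.2
      _ = (∑ t : Θ, ∑ τ : Mt D m n N, (Nat.card {I : B × W → F // CF (fine g) x0 R (tab enc I) ∧
          ∀ j, InS P enc g x0 h T R (L t j) (Φ t j) (τ.1 j) I} : ℝ)) / Fintype.card G +
            (Fintype.card Θ * Nat.card (Mt D m n N)) * (E * Nat.card (B × W → F)) := by
          rw [Finset.sum_add_distrib, Finset.sum_div, Finset.sum_const, Finset.card_univ, nsmul_eq_mul,
            Fintype.card_prod, Nat.card_eq_fintype_card (α := Mt D m n N), Fintype.sum_prod_type, Nat.cast_mul,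
            Finset.sum_congr rfl (fun t _ => Finset.sum_div _ _ _)]
      _ ≤ _ := by
          refine add_le_add ?_ ?_
          · refine div_le_div_of_nonneg_right (Finset.sum_le_sum fun t _ => ?_) hGpos
            exact_mod_cast hsum t
          · have h6 : (Nat.card (Mt D m n N) : ℝ) ≤ (D * m + 1) ^ (2 * n) := by
              exact_mod_cast card_Mt (D := D) (m := m) n N
            have h7 : (0 : ℝ) ≤ E * Nat.card (B × W → F) := by positivity
            calc (Fintype.card Θ * Nat.card (Mt D m n N) : ℝ) * (E * Nat.card (B × W → F))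
                ≤ (Fintype.card Θ * (D * m + 1) ^ (2 * n)) * (E * Nat.card (B × W → F)) :=
                  mul_le_mul_of_nonneg_right (mul_le_mul_of_nonneg_left h6 (Nat.cast_nonneg _)) h7
              _ = _ := by ring
  calc _ ≤ e1 * Nat.card (B × W → F) +
        ((∑ t, (Nat.card {I // ∀ j, InC P T (L t j) (Φ t j) I} : ℝ)) / Fintype.card G +
        Fintype.card Θ * (D * m + 1) ^ (2 * n) * E * Nat.card (B × W → F)) := add_le_add hbad h3
    _ = _ := by ring

end Pool.Agent.Helper18.BT
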